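import Pool.Agent.MP_542436_nt.Sp.Spec

set_option autoImplicit false

namespace Pool.Agent.MP_542436_nt.H81

open Pool.Agent.MP_542436_nt.Sp Finset

section Poly

open Polynomial

lemma six {R : Type} [CommRing R] (c0 c1 c2 c3 c4 c5 : R)
    (h : C c0 + C c1 * X + C c2 * X ^ 2 + C c3 * X ^ 3 + C c4 * X ^ 4 + C c5 * X ^ 5 = (0 : R[X])) :
    c0 = 0 ∧ c1 = 0 ∧ c2 = 0 ∧ c3 = 0 ∧ c4 = 0 ∧ c5 = 0 := by
  have h0 := congrArg (fun p => Polynomial.coeff p 0) h
  have h1 := congrArg (fun p => Polynomial.coeff p 1) h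
  have h2 := congrArg (fun p => Polynomial.coeff p 2) h
  have h3 := congrArg (fun p => Polynomial.coeff p 3) h
  have h4 := congrArg (fun p => Polynomial.coeff p 4) h
  have h5 := congrArg (fun p => Polynomial.coeff p 5) h
  simp [coeff_X, coeff_C, coeff_X_pow] at h0 h1 h2 h3 h4 h5
  exact ⟨h0, h1, h2, h3, h4, h5⟩

/-- A double zero is impossible when the coefficients have degree at most one. -/
lemma dbl {R : Type} [CommRing R] [IsDomain R] (u : R) (hu : u ≠ 0) (g : Fin 5 → R[X])
    (hg : ∀ a, (g a).natDegree ≤ 1)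
    (h : ∀ i : ℕ, i < 2 → ∑ a : Fin 5, g a * ((((a : ℕ).choose i : ℕ) : R[X]) *
      (-X) ^ ((a : ℕ) - i) * C u ^ (4 - (a : ℕ))) = 0) : ∀ a, g a = 0 := by
  obtain ⟨α, β, e⟩ : ∃ α β : Fin 5 → R, ∀ a, g a = C (β a) * X + C (α a) :=
    ⟨fun a => (g a).coeff 0, fun a => (g a).coeff 1, fun a =>
      eq_X_add_C_of_natDegree_le_one (hg a)⟩
  have h0 := h 0 (by norm_num)
  have h1 := h 1 (by norm_num)
  simp only [Fin.sum_univ_five, e] at h0 h1
  have v0 : ((0 : Fin 5) : ℕ) = 0 := rfl
  have v1 : ((1 : Fin 5) : ℕ) = 1 := rfl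
  have v2 : ((2 : Fin 5) : ℕ) = 2 := rfl
  have v3 : ((3 : Fin 5) : ℕ) = 3 := rfl
  have v4 : ((4 : Fin 5) : ℕ) = 4 := rfl
  simp only [v0, v1, v2, v3, v4] at h0 h1
  norm_num [Nat.choose] at h0 h1
  obtain ⟨p0, p1, p2, p3, p4, p5⟩ := six (α 0 * u ^ 4) (β 0 * u ^ 4 - α 1 * u ^ 3)
    (α 2 * u ^ 2 - β 1 * u ^ 3) (β 2 * u ^ 2 - α 3 * u) (α 4 - β 3 * u) (β 4) (by
      simp only [map_mul, map_sub, map_pow]
      linear_combination h0)
  obtain ⟨q0, q1, q2, q3, q4, -⟩ := six (α 1 * u ^ 3) (β 1 * u ^ 3 - 2 * α 2 * u ^ 2)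
    (3 * α 3 * u - 2 * β 2 * u ^ 2) (3 * β 3 * u - 4 * α 4) (-4 * β 4) 0 (by
      simp only [map_mul, map_sub, map_pow, map_neg, map_ofNat, map_zero]
      linear_combination h1)
  have k : ∀ (x : R) (n : ℕ), x * u ^ n = 0 → x = 0 := fun x n hx =>
    (mul_eq_zero.1 hx).resolve_right (pow_ne_zero n hu)
  have a0 : α 0 = 0 := k _ _ p0
  have a1 : α 1 = 0 := k _ _ q0
  have b0 : β 0 = 0 := k _ 4 (by linear_combination p1 + q0)
  have b1 : β 1 = 0 := k _ 3 (by linear_combination -q1 - 2 * p2)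
  have a2 : α 2 = 0 := k _ 2 (by linear_combination -q1 - p2)
  have b2 : β 2 = 0 := k _ 2 (by linear_combination q2 + 3 * p3)
  have a3 : α 3 = 0 := k _ 1 (by linear_combination q2 + 2 * p3)
  have b3 : β 3 = 0 := k _ 1 (by linear_combination -q3 - 4 * p4)
  have a4 : α 4 = 0 := by linear_combination -q3 - 3 * p4
  intro a
  rw [e a]
  fin_cases a <;> simp [a0, a1, a2, a3, a4, b0, b1, b2, b3, p5]

end Poly

/-- A polynomial of degree at most two with three zeros. -/
lemma tri {R : Type} [CommRing R] [IsDomain R] (p0 p1 p2 x y z : R) (hxy : x ≠ y) (hxz : x ≠ z)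
    (hyz : y ≠ z) (hx : p0 + p1 * x + p2 * x ^ 2 = 0) (hy : p0 + p1 * y + p2 * y ^ 2 = 0)
    (hz : p0 + p1 * z + p2 * z ^ 2 = 0) : p0 = 0 ∧ p1 = 0 ∧ p2 = 0 := by
  have e1 : p1 + p2 * (x + y) = 0 := by
    have : (x - y) * (p1 + p2 * (x + y)) = 0 := by linear_combination hx - hy
    exact (mul_eq_zero.1 this).resolve_left (sub_ne_zero.2 hxy)
  have e2 : p1 + p2 * (x + z) = 0 := by
    have : (x - z) * (p1 + p2 * (x + z)) = 0 := by linear_combination hx - hz
    exact (mul_eq_zero.1 this).resolve_left (sub_ne_zero.2 hxz)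
  have e3 : p2 = 0 := by
    have : (y - z) * p2 = 0 := by linear_combination e1 - e2
    exact (mul_eq_zero.1 this).resolve_left (sub_ne_zero.2 hyz)
  have e4 : p1 = 0 := by rw [e3] at e1; simpa using e1
  refine ⟨?_, e4, e3⟩
  rw [e3, e4] at hx
  simpa using hx

lemma kerEq_map {S S' : Type} [CommRing S] [CommRing S'] (f : S →+* S') {θ ζ0 ζ1 : S}
    {φ : Fin 5 × Fin 3 → S} (h : KerEq θ ζ0 ζ1 φ) :
    KerEq (f θ) (f ζ0) (f ζ1) (fun k => f (φ k)) := by
  intro i hi
  have := congrArg f (h i hi)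
  simpa only [map_sum, map_mul, map_pow, map_neg, map_natCast, map_zero] using this

open MvPolynomial

lemma comp_mul {σ M R : Type} [CommRing R] [AddCancelCommMonoid M] (w : σ → M) (δ β : M)
    (p B : MvPolynomial σ R) (hB : IsWeightedHomogeneous w B β) :
    weightedHomogeneousComponent w (δ + β) (p * B) = weightedHomogeneousComponent w δ p * B := by
  classical
  induction p using MvPolynomial.induction_on' with
  | monomial m c =>
    have hm : IsWeightedHomogeneous w (monomial m c : MvPolynomial σ R) (Finsupp.weight w m) :=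
      isWeightedHomogeneous_monomial w m c rfl
    rw [weightedHomogeneousComponent_of_mem (hm.mul hB), weightedHomogeneousComponent_of_mem hm]
    by_cases h : δ = Finsupp.weight w m
    · simp [h]
    · simp [h]
  | add p q hp hq => rw [add_mul, map_add, map_add, hp, hq, add_mul]

/-- Single out one variable. -/
noncomputable def sep {σ R : Type} [DecidableEq σ] [CommRing R] (s : σ) :
    MvPolynomial σ R →ₐ[R] Polynomial (MvPolynomial σ R) :=
  aeval (fun t => if t = s then Polynomial.X else Polynomial.C (X t))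

lemma sep_eval {σ R : Type} [DecidableEq σ] [CommRing R] (s : σ) (p : MvPolynomial σ R) :
    (sep s p).eval (X s) = p := by
  induction p using MvPolynomial.induction_on with
  | C c => simp [sep, Polynomial.algebraMap_apply]
  | add p q hp hq => rw [map_add, Polynomial.eval_add, hp, hq]
  | mul_X p t hp =>
    rw [map_mul, Polynomial.eval_mul, hp]
    by_cases h : t = s
    · simp [sep, h]
    · simp [sep, h]

lemma sep_deg {σ R : Type} [DecidableEq σ] [CommRing R] (s : σ) (p : MvPolynomial σ R) (d : ℕ)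
    (h : ∀ m ∈ p.support, m s ≤ d) : (sep s p).natDegree ≤ d := by
  rw [p.as_sum, map_sum]
  refine Polynomial.natDegree_sum_le_of_forall_le _ _ fun m hm => ?_
  rw [sep, aeval_monomial, Polynomial.algebraMap_apply]
  refine (Polynomial.natDegree_C_mul_le _ _).trans ?_
  refine (Polynomial.natDegree_prod_le _ _).trans ?_
  refine le_trans (Finset.sum_le_sum (g := fun t => if t = s then m t else 0) fun t _ => ?_) ?_
  · by_cases ht : t = s
    · simp only [ht, if_true]
      exact Polynomial.natDegree_X_pow_le _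
    · simp only [ht, if_false]
      rw [← Polynomial.C_pow, Polynomial.natDegree_C]
  · rw [Finset.sum_ite_eq']
    split_ifs
    · exact h m hm
    · exact Nat.zero_le _

/-- The weight of a variable. -/
def wt (s : Fin 2 × Fin 7) : Fin 7 → ℕ := Pi.single s.2 1

lemma wt_apply (m : Fin 2 × Fin 7 →₀ ℕ) (j : Fin 7) :
    Finsupp.weight wt m j = m (0, j) + m (1, j) := by
  rw [Finsupp.weight_apply, Finsupp.sum_fintype _ _ (by simp), Finset.sum_apply,
    Fintype.sum_prod_type, Fin.sum_univ_two]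
  simp [wt, Pi.single_apply]

lemma wt_sum (m : Fin 2 × Fin 7 →₀ ℕ) :
    ∑ j, Finsupp.weight wt m j = m.sum fun _ e => e := by
  rw [Finsupp.sum_fintype _ _ (by simp), Fintype.sum_prod_type, Fin.sum_univ_two,
    ← Finset.sum_add_distrib]
  exact Finset.sum_congr rfl fun j _ => wt_apply m j

lemma core (t : Fin 7 → ℂ) (ht : Function.Injective t)
    (Ψ : Fin 5 × Fin 3 → MvPolynomial (Fin 2 × Fin 7) ℂ) (hne : Ψ ≠ 0)
    (h : ∀ j, KerEq (C (t j)) (X (0, j)) (X (1, j)) Ψ) : ∃ k, 10 ≤ (Ψ k).totalDegree := by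
  classical
  obtain ⟨k0, hk0⟩ := Function.ne_iff.1 hne
  obtain ⟨m0, hm0⟩ := MvPolynomial.support_nonempty.2 hk0
  set δ : Fin 7 → ℕ := Finsupp.weight wt m0 with hδ
  set Θ : Fin 5 × Fin 3 → MvPolynomial (Fin 2 × Fin 7) ℂ :=
    fun k => weightedHomogeneousComponent wt δ (Ψ k) with hΘ
  have hΘ0 : Θ k0 ≠ 0 := by
    intro h0
    have := congrArg (coeff m0) h0
    rw [hΘ] at this
    simp only [coeff_weightedHomogeneousComponent, hδ, if_true, coeff_zero] at this
    exact (MvPolynomial.mem_support_iff.1 hm0) this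
  have hom : ∀ k, IsWeightedHomogeneous wt (Θ k) δ := fun k =>
    weightedHomogeneousComponent_isWeightedHomogeneous δ (Ψ k)
  have hK : ∀ j, KerEq (C (t j)) (X (0, j)) (X (1, j)) Θ := by
    intro j i hi
    have := congrArg (weightedHomogeneousComponent wt (δ + (4 - i) • Pi.single j 1)) (h j i hi)
    rw [map_sum, map_zero] at this
    rw [← this]
    refine Finset.sum_congr rfl fun k _ => ?_
    by_cases hk : (k.1 : ℕ) < i
    · simp [Nat.choose_eq_zero_of_lt hk]
    rw [mul_assoc, mul_assoc (Ψ k)]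
    refine (comp_mul wt δ _ _ _ ?_).symm
    have h1 : IsWeightedHomogeneous wt
        ((((k.1 : ℕ).choose i : ℕ) : MvPolynomial (Fin 2 × Fin 7) ℂ)) 0 := by
      rw [← map_natCast (C : ℂ →+* MvPolynomial (Fin 2 × Fin 7) ℂ)]
      exact isWeightedHomogeneous_C wt _
    have h2 := ((isWeightedHomogeneous_X ℂ wt ((1, j) : Fin 2 × Fin 7)).neg).pow ((k.1 : ℕ) - i)
    have h3 := (isWeightedHomogeneous_X ℂ wt ((0, j) : Fin 2 × Fin 7)).pow (4 - (k.1 : ℕ))
    have h4 := (isWeightedHomogeneous_C wt (t j)).pow (k.2 : ℕ)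
    have h5 := ((h1.mul h2).mul h3).mul h4
    have hk4 : (k.1 : ℕ) < 5 := k.1.2
    have hs : 4 - i = ((k.1 : ℕ) - i) + (4 - (k.1 : ℕ)) := by omega
    rw [smul_zero, zero_add, add_zero] at h5
    rw [hs, add_smul]
    exact h5
  let G : Fin 7 → Fin 5 → MvPolynomial (Fin 2 × Fin 7) ℂ :=
    fun j a => ∑ c : Fin 3, Θ (a, c) * C (t j) ^ (c : ℕ)
  have hG : ∀ j a, IsWeightedHomogeneous wt (G j a) δ := by
    intro j a
    refine IsWeightedHomogeneous.sum _ _ _ fun c _ => ?_
    simpa using (hom (a, c)).mul ((isWeightedHomogeneous_C wt (t j)).pow (c : ℕ))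
  have two : ∀ j, δ j ≤ 1 → ∀ a, G j a = 0 := by
    intro j hj
    have key := dbl (X (0, j) : MvPolynomial (Fin 2 × Fin 7) ℂ) (X_ne_zero _)
      (fun a => sep (1, j) (G j a)) (fun a => sep_deg _ _ _ fun m hm => by
        have := congrFun (hG j a (MvPolynomial.mem_support_iff.1 hm)) j
        rw [wt_apply] at this
        omega) (fun i hi => by
        have e : ∑ a : Fin 5, G j a * ((((a : ℕ).choose i : ℕ) : MvPolynomial (Fin 2 × Fin 7) ℂ) *
            (-X (1, j)) ^ ((a : ℕ) - i) * X (0, j) ^ (4 - (a : ℕ))) = 0 := by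
          rw [← hK j i hi, Fintype.sum_prod_type]
          refine Finset.sum_congr rfl fun a _ => ?_
          rw [Finset.sum_mul]
          exact Finset.sum_congr rfl fun c _ => by ring
        have e' := congrArg (sep ((1, j) : Fin 2 × Fin 7)) e
        have s1 : sep ((1, j) : Fin 2 × Fin 7) (X (1, j) : MvPolynomial (Fin 2 × Fin 7) ℂ) =
            Polynomial.X := by simp [sep]
        have s0 : sep ((1, j) : Fin 2 × Fin 7) (X (0, j) : MvPolynomial (Fin 2 × Fin 7) ℂ) =
            Polynomial.C (X (0, j)) := by simp [sep]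
        simpa only [map_sum, map_mul, map_pow, map_neg, map_natCast, map_zero, s0, s1] using e')
    intro a
    rw [← sep_eval (1, j) (G j a)]
    rw [key a, Polynomial.eval_zero]
  have few : (univ.filter (fun j : Fin 7 => δ j ≤ 1)).card ≤ 2 := by
    by_contra hc
    obtain ⟨x, y, z, hx, hy, hz, hxy, hxz, hyz⟩ := Finset.two_lt_card_iff.1 (not_le.1 hc)
    have gx := two x (Finset.mem_filter.1 hx).2 k0.1
    have gy := two y (Finset.mem_filter.1 hy).2 k0.1
    have gz := two z (Finset.mem_filter.1 hz).2 k0.1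
    have inj : ∀ a b : Fin 7, a ≠ b →
        (C (t a) : MvPolynomial (Fin 2 × Fin 7) ℂ) ≠ C (t b) := fun a b hab hh =>
      hab (ht (C_injective _ _ hh))
    simp only [G, Fin.sum_univ_three] at gx gy gz
    obtain ⟨r0, r1, r2⟩ := tri (Θ (k0.1, 0)) (Θ (k0.1, 1)) (Θ (k0.1, 2)) _ _ _ (inj x y hxy)
      (inj x z hxz) (inj y z hyz) (by simpa using gx) (by simpa using gy) (by simpa using gz)
    apply hΘ0
    obtain ⟨a, c⟩ := k0
    fin_cases c
    · exact r0
    · exact r1
    · exact r2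
  refine ⟨k0, le_trans ?_ (le_totalDegree hm0)⟩
  rw [← wt_sum, ← hδ]
  have c1 := Finset.card_filter_add_card_filter_not (s := (univ : Finset (Fin 7)))
    (fun j : Fin 7 => δ j ≤ 1)
  rw [Finset.card_univ, Fintype.card_fin] at c1
  calc 10 ≤ (univ.filter (fun j : Fin 7 => ¬ δ j ≤ 1)).card • 2 := by
        rw [smul_eq_mul]; omega
    _ ≤ ∑ j ∈ univ.filter (fun j : Fin 7 => ¬ δ j ≤ 1), δ j :=
        Finset.card_nsmul_le_sum _ _ _ fun j hj => by
          have := (Finset.mem_filter.1 hj).2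
          omega
    _ ≤ ∑ j, δ j := Finset.sum_le_sum_of_subset (Finset.filter_subset _ _)

lemma tdeg_lin {σ R S : Type} [CommRing R] [CommRing S] (f : R →+* S)
    (L : σ → MvPolynomial σ S) (hL : ∀ s, (L s).totalDegree ≤ 1) (p : MvPolynomial σ R) :
    (eval₂Hom (C.comp f) L p).totalDegree ≤ p.totalDegree := by
  conv_lhs => rw [p.as_sum, map_sum]
  refine totalDegree_finsetSum_le fun m hm => ?_
  rw [eval₂Hom_monomial]
  refine (totalDegree_mul _ _).trans ?_
  rw [RingHom.comp_apply, totalDegree_C, zero_add]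
  refine le_trans ?_ (le_totalDegree hm)
  refine (totalDegree_finsetProd _ _).trans ?_
  refine Finset.sum_le_sum fun s _ => ?_
  refine (totalDegree_pow _ _).trans ?_
  simpa using Nat.mul_le_mul_left (m s) (hL s)

theorem kerB : KerBStmt := by
  intro K _ _ θ hS Φ hΦ hP
  classical
  have hcard : Fintype.card (K →+* ℂ) = 7 := by
    rw [NumberField.Embeddings.card K ℂ, hS.rk]
  let E : Fin 7 ≃ (K →+* ℂ) := (Fintype.equivFinOfCardEq hcard).symm
  let t : Fin 7 → ℂ := fun j => E j θ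
  have ht : Function.Injective t := fun a b hab => E.injective (hS.gen hab)
  let V : Matrix (Fin 7) (Fin 7) ℂ := Matrix.vandermonde t
  have hV : IsUnit V.det := isUnit_iff_ne_zero.2 (Matrix.det_vandermonde_ne_zero_iff.2 ht)
  have hr : ∀ j j', ∑ i : Fin 7, t j ^ (i : ℕ) * V⁻¹ i j' = if j = j' then 1 else 0 := by
    intro j j'
    have := congrFun (congrFun (Matrix.mul_nonsing_inv V hV) j) j'
    rw [Matrix.mul_apply, Matrix.one_apply] at this
    exact this
  have hl : ∀ i i' : Fin 7, ∑ j, V⁻¹ i j * t j ^ (i' : ℕ) = if i = i' then 1 else 0 := by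
    intro i i'
    have := congrFun (congrFun (Matrix.nonsing_inv_mul V hV) i) i'
    rw [Matrix.mul_apply, Matrix.one_apply] at this
    exact this
  let L : Fin 2 × Fin 7 → MvPolynomial (Fin 2 × Fin 7) ℂ :=
    fun s => ∑ j, C (V⁻¹ s.2 j) * X (s.1, j)
  let ψ : MvPolynomial (Fin 2 × Fin 7) ℤ →+* MvPolynomial (Fin 2 × Fin 7) ℂ :=
    eval₂Hom (C.comp (Int.castRingHom ℂ)) L
  let χ : MvPolynomial (Fin 2 × Fin 7) ℂ →+* MvPolynomial (Fin 2 × Fin 7) ℂ :=
    eval₂Hom C (fun s => ∑ i : Fin 7, X (s.1, i) * C (t s.2 ^ (i : ℕ)))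
  have hχ : χ.comp ψ = MvPolynomial.map (Int.castRingHom ℂ) := by
    refine MvPolynomial.ringHom_ext (fun n => ?_) (fun s => ?_)
    · simp
    · obtain ⟨e, i⟩ := s
      simp only [RingHom.comp_apply, ψ, χ, L, eval₂Hom_X', map_sum, map_mul, eval₂Hom_C, map_X,
        Finset.mul_sum]
      rw [Finset.sum_comm]
      have : ∀ i' : Fin 7, ∑ j, (C (V⁻¹ i j) : MvPolynomial (Fin 2 × Fin 7) ℂ) *
          (X (e, i') * C (t j ^ (i' : ℕ))) = if i = i' then X (e, i') else 0 := by
        intro i'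
        have := congrArg (fun c => (C c : MvPolynomial (Fin 2 × Fin 7) ℂ) * X (e, i')) (hl i i')
        simp only [map_sum, map_mul, Finset.sum_mul] at this
        rw [Finset.sum_congr rfl fun j _ => (by ring : (C (V⁻¹ i j) :
          MvPolynomial (Fin 2 × Fin 7) ℂ) * (X (e, i') * C (t j ^ (i' : ℕ))) =
            C (V⁻¹ i j) * C (t j ^ (i' : ℕ)) * X (e, i')), this]
        split_ifs <;> simp
      rw [Finset.sum_congr rfl fun i' _ => this i']
      simp
  have hψ : Function.Injective ψ := by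
    have : Function.Injective (χ.comp ψ) := by
      rw [hχ]
      exact map_injective _ Int.cast_injective
    exact Function.Injective.of_comp (f := χ) this
  have hL : ∀ s, (L s).totalDegree ≤ 1 := fun s =>
    totalDegree_finsetSum_le fun j _ => (totalDegree_mul _ _).trans (by simp)
  obtain ⟨k, hk⟩ := core t ht (fun k => ψ (Φ k)) (by
    intro h0
    apply hΦ
    funext k
    exact hψ (by simpa using congrFun h0 k)) (fun j => by
    let F : MvPolynomial (Fin 2 × Fin 7) K →+* MvPolynomial (Fin 2 × Fin 7) ℂ :=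
      eval₂Hom (C.comp (E j)) L
    have hF := kerEq_map F hP
    have f1 : F (C θ) = C (t j) := by simp [F, t]
    have f2 : ∀ e : Fin 2, F (zz θ e) = X (e, j) := by
      intro e
      simp only [zz, F, L, map_sum, map_mul, eval₂Hom_X', eval₂Hom_C, RingHom.comp_apply, map_pow,
        Finset.sum_mul]
      rw [Finset.sum_comm]
      have : ∀ j' : Fin 7, ∑ i : Fin 7, (C (V⁻¹ i j') : MvPolynomial (Fin 2 × Fin 7) ℂ) *
          X (e, j') * C (E j θ) ^ (i : ℕ) = if j = j' then X (e, j') else 0 := by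
        intro j'
        have := congrArg (fun c => (C c : MvPolynomial (Fin 2 × Fin 7) ℂ) * X (e, j')) (hr j j')
        simp only [map_sum, map_mul, map_pow, Finset.sum_mul] at this
        rw [Finset.sum_congr rfl fun i _ => (by ring : (C (V⁻¹ i j') :
          MvPolynomial (Fin 2 × Fin 7) ℂ) * X (e, j') * C (E j θ) ^ (i : ℕ) =
            C (E j θ) ^ (i : ℕ) * C (V⁻¹ i j') * X (e, j')), this]
        split_ifs <;> simp
      rw [Finset.sum_congr rfl fun j' _ => this j']
      simp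
    have f3 : F.comp (MvPolynomial.map (Int.castRingHom K)) = ψ := by
      refine MvPolynomial.ringHom_ext (fun n => ?_) (fun s => ?_)
      · simp
      · simp [F, ψ]
    rw [f1, f2, f2] at hF
    have f4 : (fun k => F (MvPolynomial.map (Int.castRingHom K) (Φ k))) = fun k => ψ (Φ k) := by
      funext k
      rw [← f3, RingHom.comp_apply]
    rw [f4] at hF
    exact hF)
  exact ⟨k, hk.trans (tdeg_lin (Int.castRingHom ℂ) L hL (Φ k))⟩

end Pool.Agent.MP_542436_nt.H81
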